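import Pool.Agent.R553.HP.Algo

/-!
# MP_6c5ec8_lc: recognising non-symmetric homogeneous partial edge drawings is in P

For every rational `δ` with `0 < δ < 1/2`, the problem whose input is a straight-line drawing with
rational coordinates, and which asks whether it admits a homogeneous (not necessarily symmetric)
partial edge drawing with parameter `δ`, is in `P`. The same holds for every real `δ` in `(0, 1/2)`
for which one can decide in polynomial time whether a given rational number is at most `δ`.

The proof: put `g = 1 - 2 δ`. There is such a drawing if and only if every crossing can be assigned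
to one of its two edges in such a way that two crossings assigned to the same edge `uv` are at
distance less than `g |uv|`; this is an instance of 2-SAT with one variable for each crossing.
-/

namespace Pool.Agent.Results.MP_6c5ec8_lc.HomogeneousPEDInP

open Pool.Agent.NPC Pool.Agent.R553.HP

/-- For each fixed rational `δ` in `(0, 1/2)`, and for each fixed real `δ` in `(0, 1/2)` whose lower
cut in the rational numbers is in `P`, the recognition of the straight-line drawings that admit a
homogeneous partial edge drawing with parameter `δ` is in `P`. -/
theorem result :
    (∀ δ : ℚ, 0 < δ → δ < 1 / 2 → InPP (fun D : Dr => HPED (δ : ℝ) D)) ∧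
    (∀ δ : ℝ, 0 < δ → δ < 1 / 2 → InPP (fun q : ℚ => (q : ℝ) ≤ δ) →
      InPP (fun D : Dr => HPED δ D)) :=
  ⟨fun _ h0 h1 => main_rat h0 h1, fun _ h0 h1 h => main_real h0 h1 h⟩

end Pool.Agent.Results.MP_6c5ec8_lc.HomogeneousPEDInP
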